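import Pool.Agent.H79.EST.SRPd
import Pool.Agent.H31.EH.Targets

/-!
# Row SRH of ehf_modules: the data of the stars (helper79)
-/

set_option autoImplicit false

open Finset MeasureTheory

namespace Pool.Agent.H79.EH

open Pool.Agent.H24.CL Pool.Agent.H24.LV Pool.Agent.H26.ES Pool.Agent.H22.LVP Pool.Agent.H31.EH
  Pool.Agent.H79.EST

/-- the data of the whole pool -/
theorem srh_dat (k : ℕ) (hk : 3 ≤ k) (hGM : L_GM) (hGMP : T_GMP) (S : Finset ℕ) (V : Set (X k))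
    (A0 : ℕ → Set (X k)) (E2 : ℕ → ℕ → Set (X k)) (P' ν m τ Ω : ℝ) (hP' : 1 ≤ P') (hν : 1 ≤ ν)
    (hm : 1 ≤ m) (hτ : 0 < τ) (hτ1 : τ ≤ 1) (hΩ : 0 < Ω)
    (hpr : ∀ p ∈ S, p.Prime ∧ k < p ∧ P' ≤ (p : ℝ) ∧ (p : ℝ) ≤ 2 * P') (hV : MeasurableSet V)
    (hVΩ : volume.real V ≤ Ω)
    (hA0 : ∀ p ∈ S, MeasurableSet (A0 p)) (hE2 : ∀ p ∈ S, ∀ q ∈ S, p ≠ q → MeasurableSet (E2 p q))
    (hAc : ∀ p ∈ S, Cnt (H k p k) (A0 p) m) (hAc1 : ∀ p ∈ S, Cnt (H k p 1) (A0 p) ν)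
    (hE2c : ∀ p ∈ S, ∀ q ∈ S, p ≠ q → Cnt (H k p k ⊔ H k q k) (A0 p \ E2 p q) m)
    (hms : ∀ p ∈ S, (p : ℝ) ^ KN k * volume.real (A0 p) ≤ Ω) :
    Dat k S V (fun p => GdL k p (sA S A0 E2 p) V τ)
      (fun p y => Uns k p (GdL k p (A0 p) V τ) y ∩ GdL k p (sA S A0 E2 p) V τ) P' m τ Ω := by
  have hk1 : 1 ≤ k := by omega
  have hAm := srp_sA_meas S A0 E2 hA0 hE2
  have hsub : ∀ p, sA S A0 E2 p ⊆ A0 p := fun p => Set.sdiff_subset
  have hcnt : ∀ p ∈ S, Cnt (H k p k) (sA S A0 E2 p) m := fun p hp =>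
    sr_Cnt_mono (hAc p hp) (hsub p) (le_refl _)
  refine ⟨srp_data k hk hGM hGMP S V A0 E2 P' ν m τ Ω hP' hν hm hτ hτ1 hΩ.le hpr hV hA0 hE2 hAc
    hAc1 hE2c hms, hVΩ, hΩ, fun p hp => ?_⟩
  exact (hGM k p hk1 (hpr p hp).1.one_lt.le (sA S A0 E2 p) V τ m (hAm p hp) hV hτ hm
    (hcnt p hp)).2.2.1 (H k p k) (sr_H_mono k p hk1) m (hcnt p hp)

/-- the good mass of one prime after the removal of the exceptional sets -/
theorem srh_mass (k : ℕ) (hk : 3 ≤ k) (hGM : L_GM) (hGMP : T_GMP) (S : Finset ℕ)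
    (V : Set (X k)) (A0 : ℕ → Set (X k)) (E2 : ℕ → ℕ → Set (X k)) (ν m τ Ω lo ρ : ℝ) (hν : 1 ≤ ν)
    (hm : 1 ≤ m) (hτ : 0 < τ) (hΩ : 0 ≤ Ω) (hlo : 0 ≤ lo)
    (hpr : ∀ p ∈ S, p.Prime ∧ k < p) (hV : MeasurableSet V)
    (hA0 : ∀ p ∈ S, MeasurableSet (A0 p)) (hE2 : ∀ p ∈ S, ∀ q ∈ S, p ≠ q → MeasurableSet (E2 p q))
    (hAc : ∀ p ∈ S, Cnt (H k p k) (A0 p) m) (hAc1 : ∀ p ∈ S, Cnt (H k p 1) (A0 p) ν)
    (hE2v : ∀ p ∈ S, ∀ q ∈ S, p ≠ q → (p : ℝ) ^ KN k * volume.real (E2 p q) ≤ lo * Ω)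
    (hmass : ∀ p ∈ S, ρ * Ω ≤ (p : ℝ) ^ (KN k - k) * ((1 / (p : ℝ)) * ∑ y ∈ range p,
      volume.real {a : X k | a ∈ Uns k p (GdL k p (A0 p) V τ) y ∧ phi p y a ∈ V}))
    (hS : (S.card : ℝ) * lo ≤ ρ / 2) :
    ∀ p ∈ S, ρ / 2 * Ω ≤ (p : ℝ) ^ (KN k - k) * ((1 / (p : ℝ)) * ∑ y ∈ range p,
      volume.real {a : X k | a ∈ Uns k p (GdL k p (A0 p) V τ) y ∩ GdL k p (sA S A0 E2 p) V τ ∧
        phi p y a ∈ V}) := by
  have hk1 : 1 ≤ k := by omega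
  have hAm := srp_sA_meas S A0 E2 hA0 hE2
  have hsub : ∀ p, sA S A0 E2 p ⊆ A0 p := fun p => Set.sdiff_subset
  have gm0 := fun p (hp : p ∈ S) => hGM k p hk1 (hpr p hp).1.one_lt.le (A0 p) V τ m
    (hA0 p hp) hV hτ hm (hAc p hp)
  have gmp := fun p (hp : p ∈ S) => hGMP k p hk1 (hpr p hp).1 (hpr p hp).2 (A0 p) V τ ν m
    (hA0 p hp) hV hτ hν hm (hAc p hp) (hAc1 p hp)
  intro p hp
  have h2 : (p : ℝ) ^ (KN k - k) * volume.real
      (GdL k p (A0 p) V τ \ GdL k p (sA S A0 E2 p) V τ) ≤ (S.card : ℝ) * (lo * Ω) := by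
    have h3 := (gm0 p hp).2.2.2.2.2 (sA S A0 E2 p) (hsub p) (hAm p hp)
    have h4 : A0 p \ sA S A0 E2 p ⊆ ⋃ q ∈ S.erase p, E2 p q := by
      intro a ha
      by_contra h
      exact ha.2 ⟨ha.1, h⟩
    have h5 : volume.real (A0 p \ sA S A0 E2 p) ≤ ∑ q ∈ S.erase p, volume.real (E2 p q) :=
      le_trans (measureReal_mono h4 (measure_ne_top _ _)) (measureReal_biUnion_finset_le _ _)
    have h6 : (p : ℝ) ^ KN k = (p : ℝ) ^ (KN k - k) * (p : ℝ) ^ k := by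
      rw [← pow_add, Nat.sub_add_cancel (sr_KN_le k hk1)]
    calc (p : ℝ) ^ (KN k - k) * volume.real (GdL k p (A0 p) V τ \ GdL k p (sA S A0 E2 p) V τ) ≤
          (p : ℝ) ^ (KN k - k) * ((p : ℝ) ^ k * volume.real (A0 p \ sA S A0 E2 p)) :=
          mul_le_mul_of_nonneg_left h3 (by positivity)
      _ = (p : ℝ) ^ KN k * volume.real (A0 p \ sA S A0 E2 p) := by rw [h6]; ring
      _ ≤ (p : ℝ) ^ KN k * ∑ q ∈ S.erase p, volume.real (E2 p q) :=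
          mul_le_mul_of_nonneg_left h5 (by positivity)
      _ = ∑ q ∈ S.erase p, (p : ℝ) ^ KN k * volume.real (E2 p q) := by rw [Finset.mul_sum]
      _ ≤ ∑ _q ∈ S.erase p, lo * Ω := by
          apply Finset.sum_le_sum
          intro q hq
          rw [Finset.mem_erase] at hq
          exact hE2v p hp q hq.2 (Ne.symm hq.1)
      _ = ((S.erase p).card : ℝ) * (lo * Ω) := by rw [Finset.sum_const, nsmul_eq_mul]
      _ ≤ (S.card : ℝ) * (lo * Ω) := by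
          apply mul_le_mul_of_nonneg_right _ (mul_nonneg hlo hΩ)
          exact_mod_cast Finset.card_le_card (Finset.erase_subset _ _)
  have hp0 : (0 : ℝ) < p := by exact_mod_cast (hpr p hp).1.pos
  obtain ⟨D, hD⟩ : ∃ D : ℝ, D = volume.real
    (GdL k p (A0 p) V τ \ GdL k p (sA S A0 E2 p) V τ) := ⟨_, rfl⟩
  rw [← hD] at h2
  have h7 : ∀ y ∈ range p, volume.real {a : X k | a ∈ Uns k p (GdL k p (A0 p) V τ) y ∧
      phi p y a ∈ V} ≤ volume.real {a : X k | a ∈ Uns k p (GdL k p (A0 p) V τ) y ∩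
        GdL k p (sA S A0 E2 p) V τ ∧ phi p y a ∈ V} + D := by
    intro y _
    rw [hD]
    refine le_trans (measureReal_mono ?_ (measure_ne_top _ _)) (measureReal_union_le _ _)
    intro a ha
    by_cases hb : a ∈ GdL k p (sA S A0 E2 p) V τ
    · exact Or.inl ⟨⟨ha.1, hb⟩, ha.2⟩
    · exact Or.inr ⟨(gmp p hp).2.1 y ha.1, hb⟩
  have h8 := Finset.sum_le_sum h7
  rw [Finset.sum_add_distrib, Finset.sum_const, card_range, nsmul_eq_mul] at h8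
  have h9 := hmass p hp
  obtain ⟨s1, hs1⟩ : ∃ s1 : ℝ, s1 = ∑ y ∈ range p, volume.real {a : X k |
    a ∈ Uns k p (GdL k p (A0 p) V τ) y ∧ phi p y a ∈ V} := ⟨_, rfl⟩
  obtain ⟨s2, hs2⟩ : ∃ s2 : ℝ, s2 = ∑ y ∈ range p, volume.real {a : X k |
    a ∈ Uns k p (GdL k p (A0 p) V τ) y ∩ GdL k p (sA S A0 E2 p) V τ ∧ phi p y a ∈ V} := ⟨_, rfl⟩
  rw [← hs1] at h8 h9
  rw [← hs2] at h8
  rw [← hs2]
  have h10 : (1 / (p : ℝ)) * s1 ≤ (1 / (p : ℝ)) * s2 + D := by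
    have h11 : (1 / (p : ℝ)) * s1 ≤ (1 / (p : ℝ)) * (s2 + p * D) :=
      mul_le_mul_of_nonneg_left h8 (by positivity)
    have h12 : (1 / (p : ℝ)) * (s2 + p * D) = (1 / (p : ℝ)) * s2 + D := by
      field_simp
    linarith
  have h13 : (p : ℝ) ^ (KN k - k) * ((1 / (p : ℝ)) * s1) ≤
      (p : ℝ) ^ (KN k - k) * ((1 / (p : ℝ)) * s2) + (p : ℝ) ^ (KN k - k) * D := by
    rw [← mul_add]
    exact mul_le_mul_of_nonneg_left h10 (by positivity)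
  have h14 : (S.card : ℝ) * (lo * Ω) ≤ ρ / 2 * Ω := by
    rw [← mul_assoc]
    exact mul_le_mul_of_nonneg_right hS hΩ
  linarith

/-- good stars are rich -/
theorem good_rich {k : ℕ} (S : Finset ℕ) (V : Set (X k)) (Gd : ℕ → ℕ → Set (X k)) (kap : ℝ)
    (b : X k) (x : ℕ) (h : Good S V Gd kap b x) : StarP S V Gd b x ∧ Rich S V kap b x := by
  refine ⟨h.1, fun S' hS' => (h.2 S' hS').trans ?_⟩
  unfold den hd
  apply div_le_div_of_nonneg_right _ (Nat.cast_nonneg _)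
  refine Nat.cast_le.mpr (card_le_card ?_)
  intro y hy
  classical
  obtain ⟨h1, h2⟩ := Finset.mem_filter.mp hy
  unfold pos
  exact Finset.mem_filter.mpr ⟨h1, h2.1⟩

/-- the points covered by the rich stars -/
theorem srh_cover (k : ℕ) (hCV : T_CVP) (S : Finset ℕ) (V : Set (X k)) (Ge : ℕ → Set (X k))
    (Gd : ℕ → ℕ → Set (X k)) (P' m τ Ω κ κ' R : ℝ) (hD : SDatP k S V Ge Gd P' m τ Ω)
    (hm : R ≤ mass k (DS S) (fun b x => Good S V Gd κ b x)) (hκ : κ' ≤ κ) :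
    R ≤ volume.real {w : X k | ∃ (b : X k) (x : ℕ), x < DS S ∧ phi (DS S) x b = w ∧
        Rich S V κ' b x} := by
  refine hm.trans ?_
  have h1 : mass k (DS S) (fun b x => Good S V Gd κ b x) ≤
      mass k (DS S) (fun b x => StarP S V Gd b x ∧ Rich S V κ b x) := by
    unfold mass
    apply mul_le_mul_of_nonneg_left _ (by positivity)
    apply mul_le_mul_of_nonneg_left _ (by positivity)
    apply sum_le_sum
    intro x _
    apply measureReal_mono _ (measure_ne_top _ _)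
    intro b hb
    exact good_rich S V Gd κ b x hb
  refine h1.trans ((hCV k S V Ge Gd P' m τ Ω κ hD).trans ?_)
  apply measureReal_mono _ (measure_ne_top _ _)
  rintro w ⟨b, x, hx, hw, hr⟩
  exact ⟨b, x, hx, hw, fun S' hS' => le_trans hκ (hr S' hS')⟩

/-- the data of a smaller pool -/
theorem srh_sub {k : ℕ} {S S' : Finset ℕ} {V : Set (X k)} {Ge : ℕ → Set (X k)}
    {Gd : ℕ → ℕ → Set (X k)} {P m τ Ω : ℝ} (h : SDatP k S V Ge Gd P m τ Ω) (hS : S' ⊆ S) :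
    SDatP k S' V Ge Gd P m τ Ω :=
  ⟨h.hk, h.hP, h.hm, h.hτ, h.hτ1, h.hΩ, fun p hp => h.pr p (hS hp), h.mV,
    fun p hp => h.mE p (hS hp), fun p hp => h.mG p (hS hp), fun p hp => h.sub p (hS hp),
    fun p hp => h.invE p (hS hp), fun p hp => h.inv p (hS hp), fun p hp => h.uni p (hS hp),
    fun p hp => h.den p (hS hp), fun p hp q hq => h.fib2 p (hS hp) q (hS hq),
    fun p hp => h.ms p (hS hp)⟩

end Pool.Agent.H79.EH
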