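import Pool.Agent.H79.EST.SRPn

/-!
# Row SRH of ehf_modules: the numbers (helper79)
-/

set_option autoImplicit false

namespace Pool.Agent.H79.EH

open Pool.Agent.H79.EST

theorem numh (a ds d ε x H C C' A G P' Cl Bc g ρ τ l : ℝ) (h : ℕ)
    (hC : 1 ≤ C) (hC' : 1 ≤ C') (hA : 1 ≤ A) (hG : 1 ≤ G) (hH : 0 ≤ H) (hd : 0 < d)
    (hCl : Cl = 2 + C' + Real.log (C' * G)) (hBc : Bc = 8 + A * Cl + Cl)
    (hg : g = 2 ^ h * ((h : ℝ) + 1) * (H + 1)) (hρ : ρ = Real.exp (-C' * H) / (C' * G))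
    (hτ : τ = Real.exp (-C * H) / C) (hl : l = 1 + Real.log (1 / (ρ / 2)))
    (b1 : Bc * g ≤ a * x / 24) (b2 : Bc * g ≤ a * ds * x / 2) (b3 : Bc * g ≤ a * d * x / 2)
    (b4 : Bc * g ≤ ε * x) (hP' : Real.exp (a * x / 2) ≤ P') :
    (0 < ρ ∧ ρ ≤ 1) ∧ (0 < τ ∧ τ ≤ 1) ∧
    (∃ T : ℕ, Real.exp (A * 2 ^ h * l) ≤ T ∧ (T : ℝ) ≤ Real.exp (a * x / 4) ∧
      (T : ℝ) * Real.exp (-(a * ds * x / 2)) ≤ ρ / 2) ∧
    Real.exp (A * 2 ^ h * (h + 1) * l) ≤ P' ^ (1 / 12 : ℝ) ∧
    Real.exp (-ε * x) ≤ Real.exp (-(A * 2 ^ h * (h + 1) * l)) ∧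
    Real.exp (-ε * x) ≤ Real.exp (-(A * 2 ^ h * l)) ∧
    (C' * (2 * Real.exp (-(a * x / 8))) ≤ Real.exp (-H)) ∧
    (∀ p : ℝ, Real.exp (a * x / 2) ≤ p → C' * p ^ (-d) ≤ Real.exp (-C' * H)) := by
  have hC'0 : 0 < C' := by linarith
  have hC0 : 0 < C := by linarith
  have hG0 : 0 < G := by linarith
  have hCG : 1 ≤ C' * G := one_le_mul_of_one_le_of_one_le hC' hG
  have hCG0 : 0 < C' * G := by linarith
  have hl1 : 0 ≤ Real.log (C' * G) := Real.log_nonneg hCG
  have hl4 : Real.log C' ≤ Real.log (C' * G) :=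
    Real.log_le_log hC'0 (le_mul_of_one_le_right hC'0.le hG)
  have hl5 : 0 ≤ Real.log C' := Real.log_nonneg hC'
  have hCl3 : 3 ≤ Cl := by rw [hCl]; linarith
  have hACl : 0 ≤ A * Cl := by positivity
  have h2h : (1 : ℝ) ≤ 2 ^ h := one_le_pow₀ (by norm_num)
  have hh1 : (1 : ℝ) ≤ (h : ℝ) + 1 := by
    have : (0 : ℝ) ≤ h := Nat.cast_nonneg _
    linarith
  have hnh : (1 : ℝ) ≤ 2 ^ h * ((h : ℝ) + 1) := one_le_mul_of_one_le_of_one_le h2h hh1
  have hH1 : 1 ≤ H + 1 := by linarith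
  have hHg : H + 1 ≤ g := by
    rw [hg]
    exact le_mul_of_one_le_left (by linarith) hnh
  have hg1 : 1 ≤ g := hH1.trans hHg
  have hg0 : 0 ≤ g := by linarith
  have hax : 0 ≤ a * x := by
    have : 0 ≤ Bc * g := by
      apply mul_nonneg _ hg0
      rw [hBc]
      linarith
    linarith
  -- the density of good lines
  have hρ0 : 0 < ρ := by rw [hρ]; positivity
  have hρ1 : ρ ≤ 1 := by
    rw [hρ, div_le_one hCG0]
    refine le_trans (Real.exp_le_one_iff.mpr ?_) hCG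
    nlinarith
  have hτ0 : 0 < τ := by rw [hτ]; positivity
  have hτ1 : τ ≤ 1 := by
    rw [hτ, div_le_one hC0]
    refine le_trans (Real.exp_le_one_iff.mpr ?_) hC
    nlinarith
  have hlv : l = 1 + Real.log 2 + Real.log (C' * G) + C' * H := by
    have h1 : 1 / (ρ / 2) = 2 * (C' * G) * Real.exp (C' * H) := by
      rw [hρ, neg_mul, Real.exp_neg]
      field_simp
    rw [hl, h1, Real.log_mul (by positivity) (Real.exp_pos _).ne', Real.log_exp,
      Real.log_mul (by norm_num) hCG0.ne']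
    ring
  have hρl : Real.exp (1 - l) = ρ / 2 := by
    have h1 : 1 - l = Real.log (ρ / 2) := by
      rw [hl, one_div, Real.log_inv]
      ring
    rw [h1, Real.exp_log (by positivity)]
  have hlog2 : Real.log 2 ≤ 1 := by
    have := Real.log_two_lt_d9
    linarith
  have hlog20 : 0 ≤ Real.log 2 := Real.log_nonneg (by norm_num)
  have hC'H : 0 ≤ C' * H := by positivity
  have hl0 : 1 ≤ l := by rw [hlv]; linarith
  have hlC : l ≤ Cl * (H + 1) := by
    rw [hlv, hCl]
    nlinarith [mul_nonneg hl1 hH]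
  have hlg : l ≤ Cl * g := hlC.trans (mul_le_mul_of_nonneg_left hHg (by linarith))
  have hE : A * 2 ^ h * (h + 1) * l ≤ A * Cl * g := by
    calc A * 2 ^ h * (h + 1) * l ≤ A * 2 ^ h * (h + 1) * (Cl * (H + 1)) :=
          mul_le_mul_of_nonneg_left hlC (by positivity)
      _ = A * Cl * g := by rw [hg]; ring
  have hE0 : 0 ≤ A * 2 ^ h * l := by
    have : 0 ≤ l := by linarith
    positivity
  have hE1 : A * 2 ^ h * l ≤ A * 2 ^ h * (h + 1) * l := by
    calc A * 2 ^ h * l = (A * 2 ^ h * l) * 1 := (mul_one _).symm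
      _ ≤ (A * 2 ^ h * l) * ((h : ℝ) + 1) := mul_le_mul_of_nonneg_left hh1 hE0
      _ = A * 2 ^ h * (h + 1) * l := by ring
  have hEg : A * 2 ^ h * l ≤ A * Cl * g := hE1.trans hE
  have hBg : (1 + A * Cl + Cl) * g ≤ Bc * g := by
    apply mul_le_mul_of_nonneg_right _ hg0
    rw [hBc]; linarith
  have hBg' : (1 + A * Cl + Cl) * g = g + A * Cl * g + Cl * g := by ring
  have hClg : 0 ≤ Cl * g := by
    apply mul_nonneg _ hg0
    linarith
  refine ⟨⟨hρ0, hρ1⟩, ⟨hτ0, hτ1⟩, ?_, ?_, ?_, ?_, ?_, ?_⟩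
  · have h2e : (2 : ℝ) ≤ Real.exp 1 := by
      have := Real.add_one_le_exp (1 : ℝ)
      linarith
    have hT : ((⌈Real.exp (A * 2 ^ h * l)⌉₊ : ℕ) : ℝ) ≤ Real.exp (g + A * Cl * g) := by
      have h1 : ((⌈Real.exp (A * 2 ^ h * l)⌉₊ : ℕ) : ℝ) ≤ Real.exp (A * 2 ^ h * l) + 1 :=
        (Nat.ceil_lt_add_one (Real.exp_pos _).le).le
      have h2 : 1 ≤ Real.exp (A * 2 ^ h * l) := Real.one_le_exp hE0
      calc ((⌈Real.exp (A * 2 ^ h * l)⌉₊ : ℕ) : ℝ) ≤ 2 * Real.exp (A * 2 ^ h * l) := by linarith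
        _ ≤ Real.exp 1 * Real.exp (A * 2 ^ h * l) :=
            mul_le_mul_of_nonneg_right h2e (Real.exp_pos _).le
        _ = Real.exp (1 + A * 2 ^ h * l) := by rw [← Real.exp_add]
        _ ≤ Real.exp (g + A * Cl * g) := Real.exp_le_exp.mpr (by linarith)
    refine ⟨⌈Real.exp (A * 2 ^ h * l)⌉₊, Nat.le_ceil _, hT.trans ?_, ?_⟩
    · exact Real.exp_le_exp.mpr (by linarith)
    · calc ((⌈Real.exp (A * 2 ^ h * l)⌉₊ : ℕ) : ℝ) * Real.exp (-(a * ds * x / 2)) ≤
            Real.exp (g + A * Cl * g) * Real.exp (-(a * ds * x / 2)) :=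
            mul_le_mul_of_nonneg_right hT (Real.exp_pos _).le
        _ = Real.exp (g + A * Cl * g + -(a * ds * x / 2)) := by rw [← Real.exp_add]
        _ ≤ Real.exp (1 - l) := Real.exp_le_exp.mpr (by linarith)
        _ = ρ / 2 := hρl
  · calc Real.exp (A * 2 ^ h * (h + 1) * l) ≤ Real.exp (a * x / 2 * (1 / 12)) := by
          apply Real.exp_le_exp.mpr
          linarith
      _ = Real.exp (a * x / 2) ^ (1 / 12 : ℝ) := Real.exp_mul _ _
      _ ≤ P' ^ (1 / 12 : ℝ) := Real.rpow_le_rpow (Real.exp_pos _).le hP' (by norm_num)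
  · exact Real.exp_le_exp.mpr (by linarith)
  · exact Real.exp_le_exp.mpr (by linarith)
  · have hC'e := le_exp_log C' g hC' hg1
    have h2g : (2 : ℝ) ≤ Real.exp g := by
      have := Real.add_one_le_exp g
      linarith
    calc C' * (2 * Real.exp (-(a * x / 8))) ≤
          Real.exp (Real.log C' * g) * (Real.exp g * Real.exp (-(a * x / 8))) := by
          apply mul_le_mul hC'e _ (by positivity) (Real.exp_pos _).le
          exact mul_le_mul_of_nonneg_right h2g (Real.exp_pos _).le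
      _ = Real.exp ((Real.log C' + 1) * g - a * x / 8) := by
          rw [← Real.exp_add, ← Real.exp_add]; congr 1; ring
      _ ≤ Real.exp (-H) := by
          apply Real.exp_le_exp.mpr
          have : (Real.log C' + 1 + 1) * g ≤ Bc * g := by
            apply mul_le_mul_of_nonneg_right _ hg0
            rw [hBc, hCl]
            have : 0 ≤ A * (2 + C' + Real.log (C' * G)) := by rw [← hCl]; exact hACl
            linarith
          nlinarith
  · intro p hp
    have hC'e := le_exp_log C' g hC' hg1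
    have h1 : p ^ (-d) ≤ Real.exp (-(a * d * x / 2)) := by
      calc p ^ (-d) ≤ (Real.exp (a * x / 2)) ^ (-d) :=
            Real.rpow_le_rpow_of_nonpos (Real.exp_pos _) hp (by linarith)
        _ = Real.exp (-(a * d * x / 2)) := by rw [← Real.exp_mul]; congr 1; ring
    calc C' * p ^ (-d) ≤ Real.exp (Real.log C' * g) * Real.exp (-(a * d * x / 2)) :=
          mul_le_mul hC'e h1 (Real.rpow_nonneg (le_trans (Real.exp_pos _).le hp) _)
            (Real.exp_pos _).le
      _ = Real.exp (Real.log C' * g - a * d * x / 2) := by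
          rw [← Real.exp_add]; congr 1
      _ ≤ Real.exp (-C' * H) := by
          apply Real.exp_le_exp.mpr
          have h2 : (Real.log C' + C') * g ≤ Bc * g := by
            apply mul_le_mul_of_nonneg_right _ hg0
            rw [hBc, hCl]
            have : 0 ≤ A * (2 + C' + Real.log (C' * G)) := by rw [← hCl]; exact hACl
            linarith
          have h3 : C' * H ≤ C' * g := mul_le_mul_of_nonneg_left (by linarith) hC'0.le
          linarith

end Pool.Agent.H79.EH
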