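import Pool.Agent.H79.EST.SRP
import Pool.Agent.H79.EH.SRHn
import Pool.Agent.H79.EH.SRHd

/-!
# Row SRH of ehf_modules: many alive points lie on long dense lines (helper79)
-/

set_option autoImplicit false

open Finset MeasureTheory

namespace Pool.Agent.H79.EH

open Pool.Agent.H24.CL Pool.Agent.H24.LV Pool.Agent.H26.ES Pool.Agent.H22.LVP Pool.Agent.H31.EH
  Pool.Agent.H79.EST

theorem srh_main (k : ℕ) (hk : 3 ≤ k) (hGM : L_GM) (hGMP : T_GMP)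
    (hCV : T_CVP) (CW A a d ds ε C₃ C C' Cl Bc Dc Ds G g : ℝ) (q₀ q₁ : ℕ)
    (hCW : 1 ≤ CW) (hA : 1 ≤ A) (hC : 1 ≤ C) (hC' : 1 ≤ C')
    (hW : ∀ (N : ℕ) (t : ℝ), 1 ≤ N → 0 < t →
      (N : ℝ) ^ (KN k) * t ^ (2 * KN k) * volume.real {a : X k | t ≤ ‖u N a‖} ≤ CW)
    (hFP : ∀ (p q N : ℕ) (t : ℝ), q₁ ≤ p → q₁ ≤ q → p.Prime → q.Prime → p ≠ q → p ≤ 2 * q →
      q ≤ 2 * p → 1 ≤ N → 0 < t → (q : ℝ) ^ Ds ≤ N * t ^ 2 → N * t ^ 2 ≤ (q : ℝ) ^ (4 / a) →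
      ∃ E : Set (X k), MeasurableSet E ∧
      (N : ℝ) ^ (KN k) * t ^ (2 * KN k) * volume.real E ≤ (q : ℝ) ^ (-ds) ∧
      Cnt (H k p k ⊔ H k q k) ({a : X k | t ≤ ‖u N a‖} \ E) ((q : ℝ) ^ (1 / 100 : ℝ)))
    (hPR : ∀ (p N₀ N₁ : ℕ) (M H w : ℝ), q₀ ≤ p → p.Prime → 1 ≤ N₀ → 1 ≤ M → 0 ≤ H → 0 ≤ w →
      p * N₀ ≤ N₁ → (N₁ : ℝ) - p * N₀ ≤ w * N₁ → C' * w ≤ Real.exp (-H) →
      C' * (p : ℝ) ^ (-d) ≤ Real.exp (-C' * H) →
      (p : ℝ) ^ Dc ≤ N₀ / M → (N₀ : ℝ) / M ≤ (p : ℝ) ^ (4 / a) →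
      M ^ (KN k) * Real.exp (-H) ≤ (N₁ : ℝ) ^ (KN k) *
        volume.real {a : X k | M ^ (-(1 / 2 : ℝ)) ≤ ‖u N₁ a‖} →
      ∃ (A : Set (X k)) (τ : ℝ), MeasurableSet A ∧
        (∀ a ∈ A, M ^ (-(1 / 2 : ℝ)) / 2 ≤ ‖u (p * N₀) a‖) ∧
        Cnt (Pool.Agent.H24.CL.H k p k) A ((p : ℝ) ^ (1 / 100 : ℝ)) ∧
        Cnt (Pool.Agent.H24.CL.H k p 1) A (C * Real.exp (C * H)) ∧
        τ = Real.exp (-C * H) / C ∧
        Real.exp (-C' * H) / C' * (M / N₀) ^ (KN k) ≤ (p : ℝ) ^ (KN k - k) * ((1 / (p : ℝ)) *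
          ∑ y ∈ range p, volume.real {a : X k |
            a ∈ Uns k p (GdL k p A {v : X k | M ^ (-(1 / 2 : ℝ)) / 8 ≤ ‖u N₀ v‖} τ) y ∧
            phi p y a ∈ {v : X k | M ^ (-(1 / 2 : ℝ)) / 8 ≤ ‖u N₀ v‖}}))
    (hIT : ∀ (Q : Finset ℕ) (V : Set (X k)) (Ge : ℕ → Set (X k))
      (Gd : ℕ → ℕ → Set (X k)) (P m τ Ω ρ : ℝ) (h : ℕ), Dat k Q V Ge Gd P m τ Ω → 0 < ρ →
      ρ ≤ 1 → m ^ 3 ≤ P ^ (1 / 2 : ℝ) →
      (∀ p ∈ Q, ρ * Ω ≤ (p : ℝ) ^ (KN k - k) * ((1 / (p : ℝ)) * ∑ y ∈ range p,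
        volume.real {a : X k | a ∈ Gd p y ∧ phi p y a ∈ V})) →
      Real.exp (A * 2 ^ h * (h + 1) * (1 + Real.log (1 / ρ))) ≤ P ^ (1 / 12 : ℝ) →
      Real.exp (A * 2 ^ h * (1 + Real.log (1 / ρ))) ≤ Q.card →
      ∃ S ⊆ Q, S.card = 2 ^ h ∧ Real.exp (-(A * 2 ^ h * (1 + Real.log (1 / ρ)))) * Ω ≤
        mass k (DS S) (fun b x =>
          Good S V Gd (Real.exp (-(A * 2 ^ h * (h + 1) * (1 + Real.log (1 / ρ))))) b x))
    (ha : 0 < a) (ha16 : a ≤ 1 / 16) (hDc0 : 0 ≤ Dc) (hDc : 8 * (a * Dc) ≤ 1)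
    (hDs : 8 * (a * max Ds 0) ≤ 1) (hd : 0 < d) (hds : 0 < ds) (hε : 0 < ε) (hC₃ : 0 ≤ C₃)
    (hG : G = CW * 64 ^ KN k) (hCl : Cl = 2 + C' + Real.log (C' * G))
    (hBc : Bc = 8 + A * Cl + Cl)
    (M x H' : ℝ) (N₁ h : ℕ) (hM : 1 ≤ M) (hx : 16 ≤ x) (hH : 0 ≤ H')
    (hnL : C₃ * Real.log M ≤ 2 ^ h * (a * x / 2)) (hg : g = 2 ^ h * ((h : ℝ) + 1) * (H' + 1))
    (b1 : Bc * g ≤ a * x / 24) (b2 : Bc * g ≤ a * ds * x / 2) (b3 : Bc * g ≤ a * d * x / 2)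
    (b4 : Bc * g ≤ ε * x) (P' : ℝ) (Q : Finset ℕ) (hP'1 : Real.exp (a * x / 2) ≤ P')
    (hP'2 : P' ≤ Real.exp (a * x))
    (hQ : ∀ p ∈ Q, p.Prime ∧ P' ≤ (p : ℝ) ∧ (p : ℝ) ≤ P' * (1 + Real.exp (-(a * x / 8))))
    (hQc : Real.exp (a * x / 4) ≤ (Q.card : ℝ))
    (m2 : (q₀ : ℝ) + q₁ + k + 2 ≤ Real.exp (a * x / 2)) (m5 : 4 ≤ Real.exp (a * x / 8))
    (hN1 : M * Real.exp x ≤ (N₁ : ℝ)) (hN2 : (N₁ : ℝ) ≤ M * Real.exp (2 * x))
    (hbig : M ^ (KN k) * Real.exp (-H') ≤ (N₁ : ℝ) ^ (KN k) *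
      volume.real {a : X k | M ^ (-(1 / 2 : ℝ)) ≤ ‖u N₁ a‖}) :
    ∃ (N₀ : ℕ) (S : Finset ℕ), M * Real.exp (x / 2) ≤ N₀ ∧ N₀ ≤ N₁ ∧ (∀ p ∈ S, p.Prime) ∧
      M ^ C₃ ≤ (DS S : ℝ) ∧
      M ^ (KN k) * Real.exp (-ε * x) ≤ (N₀ : ℝ) ^ (KN k) * volume.real {w : X k | ∃ (b : X k)
        (x' : ℕ), x' < DS S ∧ phi (DS S) x' b = w ∧
        Rich S {v : X k | M ^ (-(1 / 2 : ℝ)) / 8 ≤ ‖u N₀ v‖} (Real.exp (-ε * x)) b x'} := by
  have hM0 : 0 < M := lt_of_lt_of_le one_pos hM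
  have ht : 0 < M ^ (-(1 / 2 : ℝ)) := Real.rpow_pos_of_pos hM0 _
  have hax : 0 < a * x := mul_pos ha (by linarith only [hx])
  have hG1 : 1 ≤ G := by
    rw [hG]
    exact one_le_mul_of_one_le_of_one_le hCW (one_le_pow₀ (by norm_num))
  have hP1 : 1 ≤ P' := le_trans (Real.one_le_exp (by linarith only [hax])) hP'1
  have hP0 : 0 < P' := lt_of_lt_of_le one_pos hP1
  have hP2 : (q₀ : ℝ) + q₁ + k + 2 ≤ P' := le_trans m2 hP'1
  have hq0R : (0 : ℝ) ≤ q₀ := Nat.cast_nonneg _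
  have hq1R : (0 : ℝ) ≤ q₁ := Nat.cast_nonneg _
  have hkR : (0 : ℝ) ≤ k := Nat.cast_nonneg _
  have hP'two : 2 ≤ P' := by linarith only [hP2, hq0R, hq1R, hkR]
  have h2ax : 2 ≤ Real.exp (a * x) := hP'two.trans hP'2
  obtain ⟨ρ, hρd⟩ : ∃ ρ : ℝ, ρ = Real.exp (-C' * H') / (C' * G) := ⟨_, rfl⟩
  obtain ⟨τ, hτd⟩ : ∃ τ : ℝ, τ = Real.exp (-C * H') / C := ⟨_, rfl⟩
  obtain ⟨l, hld⟩ : ∃ l : ℝ, l = 1 + Real.log (1 / (ρ / 2)) := ⟨_, rfl⟩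
  obtain ⟨⟨hρ0, hρ1⟩, ⟨hτ0, hτ1⟩, ⟨T, nT1, nT2, nT3⟩, n1, n2, n3, n4, n5⟩ :=
    numh a ds d ε x H' C C' A G P' Cl Bc g ρ τ l h hC hC' hA hG1 hH hd hCl hBc hg hρd hτd hld b1 b2
      b3 b4 hP'1
  obtain ⟨w, hw⟩ : ∃ w : ℝ, w = Real.exp (-(a * x / 8)) := ⟨_, rfl⟩
  rw [← hw] at hQ n4
  have hw0 : 0 < w := by rw [hw]; exact Real.exp_pos _
  have hw4 : w ≤ 1 / 4 := by
    rw [hw, Real.exp_neg, one_div (4 : ℝ)]
    exact inv_anti₀ (by norm_num) m5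
  -- the length
  obtain ⟨N₀, hN₀d⟩ : ∃ N₀ : ℕ, N₀ = ⌊(N₁ : ℝ) / (P' * (1 + w))⌋₊ := ⟨_, rfl⟩
  have hPN : P' ≤ w * N₁ := by
    calc P' ≤ Real.exp (a * x) := hP'2
      _ ≤ Real.exp (-(a * x / 8) + x) := by
          apply Real.exp_le_exp.mpr
          have : a * x ≤ 1 / 16 * x := mul_le_mul_of_nonneg_right ha16 (by linarith only [hx])
          linarith only [this, hx]
      _ = w * Real.exp x := by rw [Real.exp_add, hw]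
      _ ≤ w * (M * Real.exp x) := by
          apply mul_le_mul_of_nonneg_left _ hw0.le
          exact le_mul_of_one_le_left (Real.exp_pos _).le hM
      _ ≤ w * N₁ := mul_le_mul_of_nonneg_left hN1 hw0.le
  obtain ⟨hN01, hN0lo, hlen⟩ := sr_len N₁ P' w hP1 hw0.le hPN hw4 N₀ hN₀d
  have hN0M := srp_N0 M a x P' N₁ N₀ hM hx ha16 hP1 hP'2 hN1 hN0lo
  have hN0one : 1 ≤ N₀ := by
    have h1 : (1 : ℝ) ≤ N₀ := by
      refine le_trans ?_ hN0M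
      exact one_le_mul_of_one_le_of_one_le hM (Real.one_le_exp (by linarith only [hx]))
    exact_mod_cast h1
  have hN0R : (0 : ℝ) < N₀ := by exact_mod_cast hN0one
  -- facts about the primes
  have hp2P : ∀ p ∈ Q, (p : ℝ) ≤ 2 * P' := by
    intro p hp
    refine le_trans (hQ p hp).2.2 ?_
    have : P' * (1 + w) ≤ P' * 2 := mul_le_mul_of_nonneg_left (by linarith only [hw4]) hP0.le
    linarith only [this]
  have hpq0 : ∀ p ∈ Q, q₀ ≤ p := by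
    intro p hp
    have h1 : (q₀ : ℝ) ≤ p := le_trans (by linarith only [hP2, hq1R, hkR]) (hQ p hp).2.1
    exact_mod_cast h1
  have hpq1 : ∀ p ∈ Q, q₁ ≤ p := by
    intro p hp
    have h1 : (q₁ : ℝ) ≤ p := le_trans (by linarith only [hP2, hq0R, hkR]) (hQ p hp).2.1
    exact_mod_cast h1
  have hpk : ∀ p ∈ Q, k < p := by
    intro p hp
    have h1 : (k : ℝ) < p := lt_of_lt_of_le (by linarith only [hP2, hq0R, hq1R]) (hQ p hp).2.1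
    exact_mod_cast h1
  have hplo : ∀ p ∈ Q, Real.exp (a * x / 2) ≤ (p : ℝ) := fun p hp =>
    le_trans hP'1 (hQ p hp).2.1
  have hphi : ∀ p ∈ Q, (p : ℝ) ≤ 2 * Real.exp (a * x) := fun p hp =>
    le_trans (hp2P p hp) (by linarith only [hP'2])
  have hpN1 : ∀ p ∈ Q, 1 ≤ p * N₀ := fun p hp =>
    Nat.one_le_iff_ne_zero.mpr (Nat.mul_ne_zero (hQ p hp).1.pos.ne' (by omega))
  have ht2 : 0 < M ^ (-(1 / 2 : ℝ)) / 2 := half_pos ht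
  -- one prime
  obtain ⟨V, hVd⟩ : ∃ V : Set (X k), V = {v : X k | M ^ (-(1 / 2 : ℝ)) / 8 ≤ ‖u N₀ v‖} := ⟨_, rfl⟩
  have hEx : ∀ p ∈ Q, ∃ A : Set (X k), MeasurableSet A ∧
      (∀ a ∈ A, M ^ (-(1 / 2 : ℝ)) / 2 ≤ ‖u (p * N₀) a‖) ∧
      Cnt (Pool.Agent.H24.CL.H k p k) A ((p : ℝ) ^ (1 / 100 : ℝ)) ∧
      Cnt (Pool.Agent.H24.CL.H k p 1) A (C * Real.exp (C * H')) ∧
      Real.exp (-C' * H') / C' * (M / N₀) ^ (KN k) ≤ (p : ℝ) ^ (KN k - k) * ((1 / (p : ℝ)) *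
        ∑ y ∈ range p, volume.real {a : X k | a ∈ Uns k p (GdL k p A V τ) y ∧
          phi p y a ∈ V}) := by
    intro p hp
    obtain ⟨l1, l2, l3⟩ := hlen p (hQ p hp).2.1 (hQ p hp).2.2
    obtain ⟨-, g1, g2⟩ := srp_level M x a Dc N₁ N₀ p p hM hx ha hDc0 hDc
      (hQ p hp).1.one_lt.le h2ax (hplo p hp) (hphi p hp) hN0M l1 hN2
    push_cast at l2
    obtain ⟨A, τ', c1, c2, c3, c4, c5, c6⟩ := hPR p N₀ N₁ M H' (2 * w) (hpq0 p hp) (hQ p hp).1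
      hN0one hM hH (by linarith only [hw0]) l1 l2 n4 (n5 p (hplo p hp)) g1 g2 hbig
    have hτ' : τ' = τ := c5.trans hτd.symm
    rw [hτ', ← hVd] at c6
    exact ⟨A, c1, c2, c3, c4, c6⟩
  choose! A0 hA0m hA0u hA0c hA01 hA0s using hEx
  -- the exceptional sets of the pairs
  have hEx2 : ∀ p ∈ Q, ∀ q ∈ Q, p ≠ q → ∃ E : Set (X k), MeasurableSet E ∧
      (((p * N₀ : ℕ) : ℝ)) ^ (KN k) * (M ^ (-(1 / 2 : ℝ)) / 2) ^ (2 * KN k) * volume.real E ≤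
        (q : ℝ) ^ (-ds) ∧
      Cnt (Pool.Agent.H24.CL.H k p k ⊔ Pool.Agent.H24.CL.H k q k)
        ({a : X k | M ^ (-(1 / 2 : ℝ)) / 2 ≤ ‖u (p * N₀) a‖} \ E)
        ((q : ℝ) ^ (1 / 100 : ℝ)) := by
    intro p hp q hq hpq
    obtain ⟨⟨g1, g2⟩, -, -⟩ := srp_level M x a (max Ds 0) N₁ N₀ p q hM hx ha (le_max_right _ _)
      hDs (hQ p hp).1.one_lt.le h2ax (hplo q hq) (hphi q hq) hN0M
      (hlen p (hQ p hp).2.1 (hQ p hp).2.2).1 hN2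
    have g3 : (q : ℝ) ^ Ds ≤ (q : ℝ) ^ (max Ds 0) := by
      apply Real.rpow_le_rpow_of_exponent_le _ (le_max_left _ _)
      exact_mod_cast (hQ q hq).1.one_lt.le
    have g4 : p ≤ 2 * q := by
      have : (p : ℝ) ≤ 2 * q := le_trans (hp2P p hp) (by linarith only [(hQ q hq).2.1])
      exact_mod_cast this
    have g5 : q ≤ 2 * p := by
      have : (q : ℝ) ≤ 2 * p := le_trans (hp2P q hq) (by linarith only [(hQ p hp).2.1])
      exact_mod_cast this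
    exact hFP p q (p * N₀) (M ^ (-(1 / 2 : ℝ)) / 2) (hpq1 p hp) (hpq1 q hq) (hQ p hp).1 (hQ q hq).1
      hpq g4 g5 (hpN1 p hp) ht2 (le_trans g3 g1) g2
  choose! E2 hE2m hE2v hE2c using hEx2
  -- names
  obtain ⟨ν, hνd⟩ : ∃ ν : ℝ, ν = C * Real.exp (C * H') := ⟨_, rfl⟩
  obtain ⟨m, hmd⟩ : ∃ m : ℝ, m = P' ^ (1 / 50 : ℝ) := ⟨_, rfl⟩
  obtain ⟨Ω, hΩd⟩ : ∃ Ω : ℝ, Ω = CW * 64 ^ KN k * M ^ KN k / (N₀ : ℝ) ^ KN k := ⟨_, rfl⟩
  have hν1 : 1 ≤ ν := by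
    rw [hνd]
    exact one_le_mul_of_one_le_of_one_le hC
      (Real.one_le_exp (mul_nonneg (by linarith only [hC]) hH))
  have hm1 : 1 ≤ m := by rw [hmd]; exact Real.one_le_rpow hP1 (by norm_num)
  have hN0K : 0 < (N₀ : ℝ) ^ KN k := pow_pos hN0R _
  have hCW0 : 0 < CW := lt_of_lt_of_le one_pos hCW
  have hΩ0 : 0 < Ω := by rw [hΩd]; positivity
  have hVm : MeasurableSet V := by rw [hVd]; exact sr_umeas _ _ _
  rw [← hνd] at hA01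
  have hpm : ∀ p ∈ Q, (p : ℝ) ^ (1 / 100 : ℝ) ≤ m := fun p hp =>
    sr_pc P' (1 / 100) p m hP'two (by norm_num) (Nat.cast_nonneg _) (hp2P p hp)
      (by rw [hmd]; congr 1; norm_num)
  have hA0cm : ∀ p ∈ Q, Cnt (Pool.Agent.H24.CL.H k p k) (A0 p) m := fun p hp =>
    sr_Cnt_mono (hA0c p hp) (le_refl _) (hpm p hp)
  -- masses
  have hms : ∀ p ∈ Q, (p : ℝ) ^ KN k * volume.real (A0 p) ≤ Ω := fun p hp =>
    sr_ms k M CW Ω p N₀ hM hCW hN0one (hpN1 p hp) hW hΩd (A0 p) (hA0u p hp)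
  have hVΩ : volume.real V ≤ Ω := by
    rw [hVd]
    exact sr_V k M CW Ω N₀ hM hN0one hW hΩd
  -- the pool
  have gmp := fun p (hp : p ∈ Q) => hGMP k p (by omega) (hQ p hp).1 (hpk p hp) (A0 p) V τ ν m
    (hA0m p hp) hVm hτ0 hν1 hm1 (hA0cm p hp) (hA01 p hp)
  have hmass : ∀ p ∈ Q, ρ * Ω ≤ (p : ℝ) ^ (KN k - k) * ((1 / (p : ℝ)) * ∑ y ∈ range p,
      volume.real {a : X k | a ∈ Uns k p (GdL k p (A0 p) V τ) y ∧ phi p y a ∈ V}) := by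
    intro p hp
    refine le_trans (le_of_eq ?_) (hA0s p hp)
    rw [hρd, hΩd, ← hG, div_pow]
    have hG0 : G ≠ 0 := by linarith only [hG1]
    have hC'0 : C' ≠ 0 := by linarith only [hC']
    field_simp
  -- the smaller pool
  obtain ⟨S, hSQ, hST⟩ : ∃ S ⊆ Q, S.card = T := by
    apply Finset.exists_subset_card_eq
    exact_mod_cast nT2.trans hQc
  rw [← hST] at nT1 nT3
  obtain ⟨lo, hlod⟩ : ∃ lo : ℝ, lo = Real.exp (-(a * ds * x / 2)) := ⟨_, rfl⟩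
  rw [← hlod] at nT3
  have hlo0 : 0 < lo := by rw [hlod]; exact Real.exp_pos _
  have hlod' : lo = Real.exp (a * x) ^ (-(ds / 2)) := by
    rw [hlod, ← Real.exp_mul]; congr 1; ring
  have hE2v' : ∀ p ∈ S, ∀ q ∈ S, p ≠ q → (p : ℝ) ^ KN k * volume.real (E2 p q) ≤ lo * Ω := by
    intro p hp q hq hpq
    exact sr_E2v k M CW Ω (Real.exp (a * x)) ds q p N₀ hM (by linarith only [h2ax]) hCW hN0one hds
      (by rw [← Real.exp_half]; exact hplo q (hSQ hq)) lo hlod' hΩd (E2 p q)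
      (hE2v p (hSQ hp) q (hSQ hq) hpq)
  have hE2c' : ∀ p ∈ S, ∀ q ∈ S, p ≠ q →
      Cnt (Pool.Agent.H24.CL.H k p k ⊔ Pool.Agent.H24.CL.H k q k) (A0 p \ E2 p q) m := by
    intro p hp q hq hpq
    refine sr_Cnt_mono (hE2c p (hSQ hp) q (hSQ hq) hpq) ?_ (hpm q (hSQ hq))
    intro b hb
    exact ⟨hA0u p (hSQ hp) b hb.1, hb.2⟩
  have hdat := srh_dat k hk hGM hGMP S V A0 E2 P' ν m τ Ω hP1 hν1 hm1 hτ0 hτ1 hΩ0
    (fun p hp => ⟨(hQ p (hSQ hp)).1, hpk p (hSQ hp), (hQ p (hSQ hp)).2.1, hp2P p (hSQ hp)⟩) hVm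
    hVΩ (fun p hp => hA0m p (hSQ hp)) (fun p hp q hq hpq => hE2m p (hSQ hp) q (hSQ hq) hpq)
    (fun p hp => hA0cm p (hSQ hp)) (fun p hp => hA01 p (hSQ hp)) hE2c'
    (fun p hp => hms p (hSQ hp))
  have hmass' := srh_mass k hk hGM hGMP S V A0 E2 ν m τ Ω lo ρ hν1 hm1 hτ0 hΩ0.le hlo0.le
    (fun p hp => ⟨(hQ p (hSQ hp)).1, hpk p (hSQ hp)⟩) hVm (fun p hp => hA0m p (hSQ hp))
    (fun p hp q hq hpq => hE2m p (hSQ hp) q (hSQ hq) hpq) (fun p hp => hA0cm p (hSQ hp))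
    (fun p hp => hA01 p (hSQ hp)) hE2v' (fun p hp => hmass p (hSQ hp)) nT3
  have hm3 : m ^ 3 ≤ P' ^ (1 / 2 : ℝ) := by
    rw [hmd, ← Real.rpow_mul_natCast hP0.le]
    exact Real.rpow_le_rpow_of_exponent_le hP1 (by norm_num)
  obtain ⟨S₀, hS₀, hSn, hSm⟩ := hIT S V _ _ P' m τ Ω (ρ / 2) h hdat (half_pos hρ0)
    (by linarith only [hρ1, hρ0]) hm3 hmass' (by rw [← hld]; exact n1) (by rw [← hld]; exact nT1)
  rw [← hld] at hSm
  have hcov := srh_cover k hCV S₀ V _ _ P' m τ Ω _ (Real.exp (-ε * x)) _ (srh_sub hdat.dat hS₀)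
    hSm n2
  have hSQ' : S₀ ⊆ Q := hS₀.trans hSQ
  refine ⟨N₀, S₀, ?_, hN01, fun p hp => (hQ p (hSQ' hp)).1, ?_, ?_⟩
  · refine le_trans (mul_le_mul_of_nonneg_left (Real.exp_le_exp.mpr ?_) hM0.le) hN0M
    linarith only [hx]
  · have g1 : (DS S₀ : ℝ) = ∏ p ∈ S₀, (p : ℝ) := by unfold DS; push_cast; rfl
    rw [g1]
    calc M ^ C₃ = Real.exp (C₃ * Real.log M) := by
          rw [Real.rpow_def_of_pos hM0, mul_comm]
      _ ≤ Real.exp (((2 ^ h : ℕ) : ℝ) * (a * x / 2)) := by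
          apply Real.exp_le_exp.mpr
          push_cast
          exact hnL
      _ = Real.exp (a * x / 2) ^ (2 ^ h) := Real.exp_nat_mul _ _
      _ = ∏ _p ∈ S₀, Real.exp (a * x / 2) := by rw [Finset.prod_const, hSn]
      _ ≤ ∏ p ∈ S₀, (p : ℝ) := by
          apply Finset.prod_le_prod
          · intro p _; exact (Real.exp_pos _).le
          · intro p hp; exact hplo p (hSQ' hp)
  · rw [← hVd]
    have g1 : M ^ KN k ≤ (N₀ : ℝ) ^ KN k * Ω := by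
      rw [hΩd, mul_div_cancel₀ _ hN0K.ne']
      have g2 : (1 : ℝ) ≤ CW * 64 ^ KN k :=
        one_le_mul_of_one_le_of_one_le hCW (one_le_pow₀ (by norm_num))
      exact le_mul_of_one_le_left (by positivity) g2
    calc M ^ KN k * Real.exp (-ε * x) ≤ ((N₀ : ℝ) ^ KN k * Ω) *
          Real.exp (-(A * 2 ^ h * l)) :=
          mul_le_mul g1 n3 (Real.exp_pos _).le (by positivity)
      _ = (N₀ : ℝ) ^ KN k * (Real.exp (-(A * 2 ^ h * l)) * Ω) := by ring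
      _ ≤ _ := mul_le_mul_of_nonneg_left hcov hN0K.le

theorem pf_SRH (hWT : L_WT) (hFP : L_FP) (hPP : L_PP) (hGM : L_GM) (hGMP : T_GMP) (hPRP : T_PRP)
    (hITE : T_ITE) (hCVP : T_CVP) : T_SRH := by
  intro k hk C₃ ε hC₃ hε hε1
  obtain ⟨CW, hCW, hW⟩ := hWT k hk
  obtain ⟨ds, Ds, hds0, hFP⟩ := hFP k hk (1 / 100) (by norm_num) (by norm_num)
  obtain ⟨Dc, d, C, C', hDc0, hd0, hd1, hC, hC', hPR⟩ := hPRP k hk
  obtain ⟨A, hA, hIT⟩ := hITE k hk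
  obtain ⟨P₀, hPP⟩ := hPP
  set Ds' : ℝ := max Ds 0 with hDs'
  have hDs0 : 0 ≤ Ds' := le_max_right _ _
  set a : ℝ := 1 / (16 * (1 + Dc + Ds')) with ha
  have hden : 0 < 16 * (1 + Dc + Ds') := by positivity
  have ha0 : 0 < a := by positivity
  have haM : a * (16 * (1 + Dc + Ds')) = 1 := by rw [ha]; field_simp
  have ha16 : a ≤ 1 / 16 := by
    rw [ha]
    apply one_div_le_one_div_of_le (by norm_num)
    linarith
  have haDc : 8 * (a * Dc) ≤ 1 := by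
    have h1 : 0 ≤ a * Ds' := by positivity
    have h2 : 0 ≤ a * Dc := by positivity
    nlinarith
  have haDs : 8 * (a * Ds') ≤ 1 := by
    have h1 : 0 ≤ a * Ds' := by positivity
    have h2 : 0 ≤ a * Dc := by positivity
    nlinarith
  obtain ⟨q₀, hPR⟩ := hPR (4 / a)
  obtain ⟨q₁, hFP⟩ := hFP (4 / a)
  obtain ⟨G, hG⟩ : ∃ G : ℝ, G = CW * 64 ^ KN k := ⟨_, rfl⟩
  have hG1 : 1 ≤ G := by
    rw [hG]
    exact one_le_mul_of_one_le_of_one_le hCW (one_le_pow₀ (by norm_num))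
  obtain ⟨Cl, hCl⟩ : ∃ Cl : ℝ, Cl = 2 + C' + Real.log (C' * G) := ⟨_, rfl⟩
  have hCl0 : 0 < Cl := by
    have h1 : 0 ≤ Real.log (C' * G) :=
      Real.log_nonneg (one_le_mul_of_one_le_of_one_le hC' hG1)
    rw [hCl]
    linarith
  obtain ⟨Bc, hBc⟩ : ∃ Bc : ℝ, Bc = 8 + A * Cl + Cl := ⟨_, rfl⟩
  have hBc0 : 0 < Bc := by
    rw [hBc]
    positivity
  obtain ⟨Cn, hCn⟩ : ∃ Cn : ℝ, Cn = 4 * C₃ / a + 2 := ⟨_, rfl⟩
  have hCn1 : 1 ≤ Cn := by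
    have : 0 ≤ 4 * C₃ / a := by positivity
    rw [hCn]; linarith
  have hlCn : 0 ≤ Real.log Cn := Real.log_nonneg hCn1
  obtain ⟨Ch, hCh⟩ : ∃ Ch : ℝ, Ch = 2 * Real.log Cn + 3 := ⟨_, rfl⟩
  have hCh0 : 0 < Ch := by rw [hCh]; linarith
  obtain ⟨μ, hμ⟩ : ∃ μ : ℝ, μ = min (min (a / 24) (a * ds / 2)) (min (a * d / 2) ε) := ⟨_, rfl⟩
  have hμ0 : 0 < μ := by
    rw [hμ]
    apply lt_min (lt_min _ _) (lt_min _ hε) <;> positivity
  set X₀ : ℝ := 16 + |P₀| / a + 2 * ((q₀ : ℝ) + q₁ + k + 2) / a + 32 / a with hX₀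
  have hP0a : 0 ≤ |P₀| / a := by positivity
  have hBa : 0 ≤ 2 * ((q₀ : ℝ) + q₁ + k + 2) / a := by positivity
  have h32a : 0 ≤ 32 / a := by positivity
  obtain ⟨c₀, hc₀⟩ : ∃ c₀ : ℝ, c₀ = μ / (Bc * (Cn * Ch)) := ⟨_, rfl⟩
  have hCn0 : 0 < Cn := by linarith
  have hc0 : 0 < c₀ := by rw [hc₀]; positivity
  refine ⟨c₀, X₀, hc0, by linarith, ?_⟩
  intro M x H' N₁ hM hxX hxL hH hHx hN1 hN2 hbig
  have hx1 : 1 ≤ x := by linarith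
  obtain ⟨L, hL⟩ : ∃ L : ℝ, L = Real.log M := ⟨_, rfl⟩
  obtain ⟨Λ, hΛ⟩ : ∃ Λ : ℝ, Λ = Lam M := ⟨_, rfl⟩
  rw [← hL] at hxL hHx
  rw [← hΛ] at hHx
  have hx0 : 0 < x := by linarith
  have hL0 : 0 < L := by linarith
  have hΛL : Λ = Real.log (3 + L) := by rw [hΛ, hL]; rfl
  have hΛ1 : 1 ≤ Λ := by
    rw [hΛL, Real.le_log_iff_exp_le (by linarith)]
    have := Real.exp_one_lt_d9
    linarith
  have hLΛ : 0 < L * Λ := by positivity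
  rw [le_div_iff₀ hLΛ] at hHx
  have x1 : 16 ≤ x := by linarith
  have x2 : P₀ ≤ Real.exp (a * x) := by
    have h1 : |P₀| / a ≤ x := by linarith
    rw [div_le_iff₀ ha0] at h1
    calc P₀ ≤ |P₀| := le_abs_self _
      _ ≤ a * x := by linarith
      _ ≤ Real.exp (a * x) := le_exp_self _
  have x3 : (q₀ : ℝ) + q₁ + k + 2 ≤ Real.exp (a * x / 2) := by
    have h1 : 2 * ((q₀ : ℝ) + q₁ + k + 2) / a ≤ x := by linarith
    rw [div_le_iff₀ ha0] at h1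
    calc (q₀ : ℝ) + q₁ + k + 2 ≤ a * x / 2 := by linarith
      _ ≤ Real.exp (a * x / 2) := le_exp_self _
  have x4 : 4 ≤ Real.exp (a * x / 8) := by
    have h1 : 32 / a ≤ x := by linarith
    rw [div_le_iff₀ ha0] at h1
    calc (4 : ℝ) ≤ a * x / 8 := by linarith
      _ ≤ Real.exp (a * x / 8) := le_exp_self _
  -- the number of the primes
  obtain ⟨n, hn⟩ : ∃ n : ℕ, n = ⌈2 * C₃ * L / (a * x)⌉₊ := ⟨_, rfl⟩
  have hax : 0 < a * x := by positivity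
  have hn1 : 1 ≤ n := by rw [hn]; exact Nat.one_le_ceil_iff.mpr (by positivity)
  have hnlo : 2 * C₃ * L / (a * x) ≤ n := by rw [hn]; exact Nat.le_ceil _
  have hnhi : (n : ℝ) ≤ 2 * C₃ * L / (a * x) + 1 := by
    rw [hn]
    exact (Nat.ceil_lt_add_one (by positivity)).le
  obtain ⟨h, hh⟩ : ∃ h : ℕ, h = Nat.log 2 n + 1 := ⟨_, rfl⟩
  have hh1 : (n : ℝ) ≤ 2 ^ h := by
    have h1 : n < 2 ^ h := by
      rw [hh]
      exact Nat.lt_pow_succ_log_self (by norm_num) n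
    exact_mod_cast h1.le
  have hh2 : (2 : ℝ) ^ h ≤ 2 * n := by
    have h1 : 2 ^ h ≤ 2 * n := by
      rw [hh, pow_succ, mul_comm]
      exact Nat.mul_le_mul_left 2 (Nat.pow_log_le_self 2 (by omega))
    exact_mod_cast h1
  have hnCn : (2 : ℝ) ^ h * x ≤ Cn * L := by
    have h1 : (2 : ℝ) ^ h * x ≤ (2 * (2 * C₃ * L / (a * x) + 1)) * x :=
      mul_le_mul_of_nonneg_right (by linarith) hx0.le
    have h2 : (2 * (2 * C₃ * L / (a * x) + 1)) * x = 4 * C₃ / a * L + 2 * x := by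
      field_simp
      ring
    rw [h2] at h1
    rw [hCn, add_mul]
    linarith
  have hnL : C₃ * L ≤ 2 ^ h * (a * x / 2) := by
    rw [div_le_iff₀ hax] at hnlo
    have h1 : (n : ℝ) * (a * x) ≤ 2 ^ h * (a * x) := mul_le_mul_of_nonneg_right hh1 hax.le
    linarith
  -- the number of the steps
  have hhC : (h : ℝ) + 1 ≤ Ch * Λ := by
    have h1 : (2 : ℝ) ^ h ≤ Cn * L := by
      refine le_trans ?_ hnCn
      exact le_mul_of_one_le_right (by positivity) hx1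
    have h2 : (h : ℝ) * Real.log 2 ≤ Real.log Cn + Λ := by
      calc (h : ℝ) * Real.log 2 = Real.log (2 ^ h) := (Real.log_pow _ _).symm
        _ ≤ Real.log (Cn * L) := Real.log_le_log (by positivity) h1
        _ = Real.log Cn + Real.log L := Real.log_mul hCn0.ne' hL0.ne'
        _ ≤ Real.log Cn + Λ := by
            rw [hΛL]
            have := Real.log_le_log hL0 (show L ≤ 3 + L by linarith)
            linarith
    have h3 : (1 / 2 : ℝ) ≤ Real.log 2 := by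
      have := Real.log_two_gt_d9
      linarith
    have h4 : (h : ℝ) * (1 / 2) ≤ h * Real.log 2 :=
      mul_le_mul_of_nonneg_left h3 (Nat.cast_nonneg _)
    have h5 : Real.log Cn ≤ Real.log Cn * Λ := le_mul_of_one_le_right hlCn hΛ1
    rw [hCh, add_mul]
    linarith
  -- the main number
  obtain ⟨g, hg⟩ : ∃ g : ℝ, g = 2 ^ h * ((h : ℝ) + 1) * (H' + 1) := ⟨_, rfl⟩
  have hgx : Bc * g ≤ μ * x := by
    have h1 : g * (x * (L * Λ)) ≤ (Cn * Ch * c₀ * x) * (x * (L * Λ)) := by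
      calc g * (x * (L * Λ)) = ((2 : ℝ) ^ h * x) * (((h : ℝ) + 1) * ((H' + 1) * (L * Λ))) := by
            rw [hg]; ring
        _ ≤ (Cn * L) * ((Ch * Λ) * (c₀ * x ^ 2)) := by
            apply mul_le_mul hnCn _ (by positivity) (by positivity)
            exact mul_le_mul hhC hHx (by positivity) (by positivity)
        _ = (Cn * Ch * c₀ * x) * (x * (L * Λ)) := by ring
    have h2 : g ≤ Cn * Ch * c₀ * x := le_of_mul_le_mul_right h1 (by positivity)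
    have h3 : c₀ * (Bc * (Cn * Ch)) = μ := by
      rw [hc₀]
      field_simp
    calc Bc * g ≤ Bc * (Cn * Ch * c₀ * x) := mul_le_mul_of_nonneg_left h2 hBc0.le
      _ = (c₀ * (Bc * (Cn * Ch))) * x := by ring
      _ = μ * x := by rw [h3]
  have b1 : Bc * g ≤ a * x / 24 := by
    refine hgx.trans ?_
    rw [hμ]
    calc min (min (a / 24) (a * ds / 2)) (min (a * d / 2) ε) * x ≤ (a / 24) * x :=
          mul_le_mul_of_nonneg_right ((min_le_left _ _).trans (min_le_left _ _)) hx0.le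
      _ = a * x / 24 := by ring
  have b2 : Bc * g ≤ a * ds * x / 2 := by
    refine hgx.trans ?_
    rw [hμ]
    calc min (min (a / 24) (a * ds / 2)) (min (a * d / 2) ε) * x ≤ (a * ds / 2) * x :=
          mul_le_mul_of_nonneg_right ((min_le_left _ _).trans (min_le_right _ _)) hx0.le
      _ = a * ds * x / 2 := by ring
  have b3 : Bc * g ≤ a * d * x / 2 := by
    refine hgx.trans ?_
    rw [hμ]
    calc min (min (a / 24) (a * ds / 2)) (min (a * d / 2) ε) * x ≤ (a * d / 2) * x :=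
          mul_le_mul_of_nonneg_right ((min_le_right _ _).trans (min_le_left _ _)) hx0.le
      _ = a * d * x / 2 := by ring
  have b4 : Bc * g ≤ ε * x := by
    refine hgx.trans ?_
    rw [hμ]
    exact mul_le_mul_of_nonneg_right ((min_le_right _ _).trans (min_le_right _ _)) hx0.le
  obtain ⟨P', Q, hP'1, hP'2, hQ, hQc⟩ := hPP (Real.exp (a * x)) x2
  rw [← Real.exp_half] at hP'1
  have e8 : Real.exp (a * x) ^ (-(1 / 8 : ℝ)) = Real.exp (-(a * x / 8)) := by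
    rw [← Real.exp_mul]; congr 1; ring
  have e4 : Real.exp (a * x) ^ (1 / 4 : ℝ) = Real.exp (a * x / 4) := by
    rw [← Real.exp_mul]; congr 1; ring
  rw [e8] at hQ
  rw [e4] at hQc
  exact srh_main k hk hGM hGMP hCVP CW A a d ds ε C₃ C C' Cl Bc Dc Ds G g q₀ q₁ hCW hA
    hC hC' hW hFP hPR hIT ha0 ha16 hDc0.le haDc haDs hd0 hds0 hε (by linarith) hG hCl hBc M x H' N₁
    h (by linarith) x1 hH (by rw [← hL]; exact hnL) hg b1 b2 b3 b4 P' Q hP'1 hP'2 hQ hQc x3 x4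
    hN1 hN2 hbig

end Pool.Agent.H79.EH
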