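import Pool.Agent.H79.EST.All
import Pool.Agent.H79.HF.Fi
import Pool.Agent.H79.HF.See
import Pool.Agent.H79.HF.Jj
import Pool.Agent.H79.EH.SRH

/-!
# From the iteration to the critical mean value (helper79)

`T_ITE` is the only hypothesis left.
-/

set_option autoImplicit false

open Finset MeasureTheory

namespace Pool.Agent.H79.EH

open Pool.Agent.H24.LVP Pool.Agent.H24.CL Pool.Agent.H24.LV Pool.Agent.H79.PL Pool.Agent.H79.HF
  Pool.Agent.H31.EH

/-- the gain function of the doubling -/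
noncomputable def PhiH (L : ℝ) : ℝ := L * Real.log (3 + L)

/-- the gain function of the ladders -/
def PhiL (L : ℝ) : ℝ := L

theorem gainH : GainF PhiH where
  lo := by
    intro L hL
    have h2 : 0 < Real.log 2 := Real.log_pos (by norm_num)
    have hL0 : 0 < L := lt_of_lt_of_le h2 hL
    have h1 : 1 ≤ Real.log (3 + L) := by
      rw [Real.le_log_iff_exp_le (by linarith)]
      have := Real.exp_one_lt_d9
      linarith
    exact le_mul_of_one_le_right hL0.le h1
  mo := by
    intro L L' hL hLL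
    have h2 : 0 < Real.log 2 := Real.log_pos (by norm_num)
    have hL0 : 0 < L := lt_of_lt_of_le h2 hL
    have h1 : Real.log (3 + L) ≤ Real.log (3 + L') := Real.log_le_log (by linarith) (by linarith)
    have h3 : 0 ≤ Real.log (3 + L) := Real.log_nonneg (by linarith)
    exact mul_le_mul hLL h1 h3 (hL0.le.trans hLL)

theorem gainL : GainF PhiL where
  lo := fun _ _ => le_refl _
  mo := fun _ _ _ h => h

theorem srpg (h : T_SRH) : T_SRPg PhiH := h

/-- the seen points -/
theorem seeH (h : T_SRH) : T_SEE PhiH :=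
  see_of_srp PhiH (srpg h) Pool.Agent.H79.EST.eWEX

/-- the level sets, from the seen points -/
theorem fi_of_see (Φ : ℝ → ℝ) (hΦ : GainF Φ) (h : T_SEE Φ) : T_FIg Φ :=
  pf_FIg Φ hΦ aWT aFIN h Pool.Agent.H65.EN.eMX

/-- the critical mean value, from the seen points -/
theorem jj_of_see (Φ : ℝ → ℝ) (hΦ : GainF Φ) (h : T_SEE Φ) : T_JJg Φ :=
  pf_JJg Φ hΦ (fi_of_see Φ hΦ h) aLY

/-- SRH from the iteration -/
theorem srh_of_ite (h : T_ITE) : T_SRH :=
  pf_SRH aWT aFP aPP aGM sGMP sPRP h sCVP

/-- the critical mean value, from the iteration -/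
theorem jj_of_ite (h : T_ITE) : T_JJg PhiH :=
  jj_of_see PhiH gainH (seeH (srh_of_ite h))

/-- the critical mean value, from the iteration, explicit -/
theorem jj_final (h : T_ITE) : ∀ k : ℕ, 3 ≤ k → ∃ C : ℝ, ∀ N : ℕ, 2 ≤ N →
    ∫ a : X k, ‖f N a‖ ^ (2 * KN k) ≤ C * (N : ℝ) ^ (KN k) *
      (1 + Real.log N * Real.log (3 + Real.log N)) ^ (1 / 2 : ℝ) :=
  jj_of_ite h

end Pool.Agent.H79.EH
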